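import Mathlib
import Pool.Agent.N840.CU.Box

/-!
# An exponential moment on a box
-/

set_option autoImplicit false

open Finset

namespace Pool.Agent.N840.RC

open Pool.Agent.N840.CU (ctr)

lemma ctr_abs (H : ℕ) (t : Fin (H + 1)) : |ctr H t| ≤ H := by
  unfold ctr
  have h1 : ((t : ℕ) : ℝ) ≤ H := by exact_mod_cast Nat.lt_succ_iff.1 t.2
  have h2 : (0 : ℝ) ≤ ((t : ℕ) : ℝ) := Nat.cast_nonneg _
  rw [abs_le]
  constructor <;> linarith

lemma ctr_rev (H : ℕ) (t : Fin (H + 1)) : ctr H t.rev = - ctr H t := by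
  unfold ctr
  rw [Fin.val_rev]
  have h1 : H + 1 - ((t : ℕ) + 1) = H - t := by omega
  rw [h1, Nat.cast_sub (Nat.lt_succ_iff.1 t.2)]
  ring

lemma sum_exp (H : ℕ) (l : ℝ) :
    ∑ t : Fin (H + 1), Real.exp (l * ctr H t) ≤ (H + 1) * Real.exp (l ^ 2 * H ^ 2 / 2) := by
  have h1 : ∑ t : Fin (H + 1), Real.exp (l * ctr H t) =
      ∑ t : Fin (H + 1), Real.exp (-(l * ctr H t)) := by
    rw [← Equiv.sum_comp Fin.revPerm]
    refine Finset.sum_congr rfl fun t _ => ?_
    rw [Fin.revPerm_apply, ctr_rev]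
    congr 1
    ring
  have h2 : ∑ t : Fin (H + 1), Real.exp (l * ctr H t) =
      ∑ t : Fin (H + 1), Real.cosh (l * ctr H t) := by
    have h3 : ∀ t : Fin (H + 1), Real.cosh (l * ctr H t) =
        1 / 2 * Real.exp (l * ctr H t) + 1 / 2 * Real.exp (-(l * ctr H t)) := by
      intro t
      rw [Real.cosh_eq]
      ring
    rw [Finset.sum_congr rfl fun t _ => h3 t, Finset.sum_add_distrib, ← Finset.mul_sum,
      ← Finset.mul_sum, ← h1]
    ring
  rw [h2]
  calc ∑ t : Fin (H + 1), Real.cosh (l * ctr H t)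
      ≤ ∑ _t : Fin (H + 1), Real.exp (l ^ 2 * H ^ 2 / 2) := by
        refine Finset.sum_le_sum fun t _ => (Real.cosh_le_exp_half_sq _).trans ?_
        apply Real.exp_le_exp.2
        have h3 : (ctr H t) ^ 2 ≤ (H : ℝ) ^ 2 := by
          rw [← sq_abs (ctr H t)]
          exact pow_le_pow_left₀ (abs_nonneg _) (ctr_abs H t) 2
        have h4 := mul_le_mul_of_nonneg_left h3 (sq_nonneg l)
        rw [mul_pow]
        linarith
    _ = _ := by
        rw [Finset.sum_const, Finset.card_univ, Fintype.card_fin, nsmul_eq_mul]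
        push_cast
        ring

/-- the exponential moment -/
theorem moment {ι : Type} [Fintype ι] [DecidableEq ι] (H : ℕ) (x : ι → ℝ) (hx : ∀ i, |x i| ≤ 1)
    (l : ℝ) :
    ∑ e : ι → Fin (H + 1), Real.exp (l * ∑ i, ctr H (e i) * x i) ≤
      (H + 1) ^ (Fintype.card ι) * Real.exp ((Fintype.card ι : ℝ) * (l ^ 2 * H ^ 2 / 2)) := by
  have h1 : ∑ e : ι → Fin (H + 1), Real.exp (l * ∑ i, ctr H (e i) * x i) =
      ∏ i, ∑ t : Fin (H + 1), Real.exp ((l * x i) * ctr H t) := by
    rw [Finset.prod_univ_sum, Fintype.piFinset_univ]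
    refine Finset.sum_congr rfl fun e _ => ?_
    rw [← Real.exp_sum, Finset.mul_sum]
    congr 1
    exact Finset.sum_congr rfl fun i _ => by ring
  rw [h1]
  calc ∏ i, ∑ t : Fin (H + 1), Real.exp ((l * x i) * ctr H t)
      ≤ ∏ _i : ι, ((H + 1) * Real.exp (l ^ 2 * H ^ 2 / 2)) := by
        refine Finset.prod_le_prod (fun i _ => Finset.sum_nonneg fun t _ => (Real.exp_pos _).le)
          fun i _ => (sum_exp H (l * x i)).trans ?_
        apply mul_le_mul_of_nonneg_left _ (by positivity)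
        apply Real.exp_le_exp.2
        have h2 : (x i) ^ 2 ≤ 1 := by
          rw [← sq_abs]
          exact pow_le_one₀ (abs_nonneg _) (hx i)
        have h3 := mul_le_mul_of_nonneg_left h2 (show 0 ≤ l ^ 2 * (H : ℝ) ^ 2 / 2 by positivity)
        rw [mul_pow]
        linarith
    _ = _ := by
        rw [Finset.prod_const, Finset.card_univ, mul_pow, ← Real.exp_nat_mul]

/-- few points of the box have a large value -/
theorem few {ι : Type} [Fintype ι] [DecidableEq ι] (hι : 0 < Fintype.card ι) (H : ℕ) (x : ι → ℝ)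
    (hx : ∀ i, |x i| ≤ 1) (P T : ℝ) (hT : 0 < T) (hHT : H * T ≤ P) (hP : 0 < P) :
    (((univ : Finset (ι → Fin (H + 1))).filter (fun e => P ≤ ∑ i, ctr H (e i) * x i)).card : ℝ) ≤
      (H + 1) ^ (Fintype.card ι) * Real.exp (-(T ^ 2 / (2 * Fintype.card ι))) := by
  classical
  set n := Fintype.card ι with hn
  have hn0 : (0 : ℝ) < n := by exact_mod_cast hι
  set l : ℝ := T ^ 2 / (n * P) with hl
  have hl0 : 0 < l := by positivity
  set B := (univ : Finset (ι → Fin (H + 1))).filter (fun e => P ≤ ∑ i, ctr H (e i) * x i) with hB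
  have h1 : (B.card : ℝ) * Real.exp (l * P) ≤
      ∑ e : ι → Fin (H + 1), Real.exp (l * ∑ i, ctr H (e i) * x i) := by
    calc (B.card : ℝ) * Real.exp (l * P) = ∑ _e ∈ B, Real.exp (l * P) := by
          rw [Finset.sum_const, nsmul_eq_mul]
      _ ≤ ∑ e ∈ B, Real.exp (l * ∑ i, ctr H (e i) * x i) := by
          refine Finset.sum_le_sum fun e he => Real.exp_le_exp.2 ?_
          exact mul_le_mul_of_nonneg_left (Finset.mem_filter.1 he).2 hl0.le
      _ ≤ _ := Finset.sum_le_sum_of_subset_of_nonneg (Finset.filter_subset _ _)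
          fun e _ _ => (Real.exp_pos _).le
  have h2 := h1.trans (moment H x hx l)
  have h3 : (n : ℝ) * (l ^ 2 * H ^ 2 / 2) ≤ T ^ 2 / (2 * n) := by
    have h4 : (H : ℝ) ^ 2 * T ^ 2 ≤ P ^ 2 := by
      rw [← mul_pow]
      exact pow_le_pow_left₀ (by positivity) hHT 2
    have h5 : (n : ℝ) * (l ^ 2 * H ^ 2 / 2) = (T ^ 2 / (2 * n)) * ((H ^ 2 * T ^ 2) / P ^ 2) := by
      rw [hl]
      field_simp
    rw [h5]
    have h6 : ((H : ℝ) ^ 2 * T ^ 2) / P ^ 2 ≤ 1 := by
      rw [div_le_one (by positivity)]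
      exact h4
    calc (T ^ 2 / (2 * n)) * ((H ^ 2 * T ^ 2) / P ^ 2) ≤ (T ^ 2 / (2 * n)) * 1 :=
          mul_le_mul_of_nonneg_left h6 (by positivity)
      _ = _ := mul_one _
  have h4 : l * P = T ^ 2 / n := by
    rw [hl]
    field_simp
  rw [h4] at h2
  have h5 : (B.card : ℝ) = B.card * Real.exp (T ^ 2 / n) * Real.exp (-(T ^ 2 / n)) := by
    rw [mul_assoc, ← Real.exp_add, add_neg_cancel, Real.exp_zero, mul_one]
  rw [h5]
  calc (B.card : ℝ) * Real.exp (T ^ 2 / n) * Real.exp (-(T ^ 2 / n))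
      ≤ ((H + 1) ^ n * Real.exp ((n : ℝ) * (l ^ 2 * H ^ 2 / 2))) * Real.exp (-(T ^ 2 / n)) :=
        mul_le_mul_of_nonneg_right h2 (Real.exp_pos _).le
    _ ≤ ((H + 1) ^ n * Real.exp (T ^ 2 / (2 * n))) * Real.exp (-(T ^ 2 / n)) := by
        refine mul_le_mul_of_nonneg_right ?_ (Real.exp_pos _).le
        exact mul_le_mul_of_nonneg_left (Real.exp_le_exp.2 h3) (by positivity)
    _ = _ := by
        rw [mul_assoc, ← Real.exp_add]
        congr 2
        field_simp
        ring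

/-- half of the points have only small values -/
theorem half {ι β : Type} [Fintype ι] [DecidableEq ι] [Fintype β] (hι : 0 < Fintype.card ι)
    (H : ℕ) (x : β → ι → ℝ) (hx : ∀ b i, |x b i| ≤ 1) (P T : ℝ) (hT : 0 < T) (hHT : H * T ≤ P)
    (hP : 0 < P)
    (hβ : 2 * (Fintype.card β : ℝ) * Real.exp (-(T ^ 2 / (2 * Fintype.card ι))) ≤ 1) :
    (H + 1) ^ (Fintype.card ι) ≤ 2 * ((univ : Finset (ι → Fin (H + 1))).filter (fun e =>
      ∀ b, ∑ i, ctr H (e i) * x b i < P)).card := by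
  classical
  set n := Fintype.card ι with hn
  set G := (univ : Finset (ι → Fin (H + 1))).filter (fun e =>
      ∀ b, ∑ i, ctr H (e i) * x b i < P) with hG
  set B := (univ : Finset (ι → Fin (H + 1))).filter (fun e =>
      ¬ ∀ b, ∑ i, ctr H (e i) * x b i < P) with hB
  have hcard : G.card + B.card = (H + 1) ^ n := by
    rw [hG, hB, Finset.card_filter_add_card_filter_not, Finset.card_univ, Fintype.card_fun,
      Fintype.card_fin]
  have hsub : B ⊆ (univ : Finset β).biUnion (fun b =>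
      (univ : Finset (ι → Fin (H + 1))).filter (fun e => P ≤ ∑ i, ctr H (e i) * x b i)) := by
    intro e he
    have := (Finset.mem_filter.1 he).2
    push Not at this
    obtain ⟨b, hb⟩ := this
    exact Finset.mem_biUnion.2 ⟨b, Finset.mem_univ _, Finset.mem_filter.2 ⟨Finset.mem_univ _, hb⟩⟩
  have h1 : (B.card : ℝ) ≤ (Fintype.card β : ℝ) *
      ((H + 1) ^ n * Real.exp (-(T ^ 2 / (2 * n)))) := by
    have h2 := (Finset.card_le_card hsub).trans Finset.card_biUnion_le
    calc (B.card : ℝ) ≤ ∑ b : β, (((univ : Finset (ι → Fin (H + 1))).filter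
          (fun e => P ≤ ∑ i, ctr H (e i) * x b i)).card : ℝ) := by exact_mod_cast h2
      _ ≤ ∑ _b : β, ((H + 1 : ℝ) ^ n * Real.exp (-(T ^ 2 / (2 * n)))) :=
          Finset.sum_le_sum fun b _ => few hι H (x b) (hx b) P T hT hHT hP
      _ = _ := by rw [Finset.sum_const, Finset.card_univ, nsmul_eq_mul]
  have h2 : 2 * (B.card : ℝ) ≤ (H + 1) ^ n := by
    calc 2 * (B.card : ℝ) ≤ 2 * ((Fintype.card β : ℝ) *
          ((H + 1) ^ n * Real.exp (-(T ^ 2 / (2 * n))))) := by linarith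
      _ = (2 * (Fintype.card β : ℝ) * Real.exp (-(T ^ 2 / (2 * n)))) * (H + 1) ^ n := by ring
      _ ≤ 1 * (H + 1) ^ n := mul_le_mul_of_nonneg_right hβ (by positivity)
      _ = _ := one_mul _
  have h3 : 2 * B.card ≤ (H + 1) ^ n := by exact_mod_cast h2
  omega

end Pool.Agent.N840.RC
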