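import Mathlib
import Pool.Agent.N840.RC.Hoeff
import Pool.Agent.R361.QF.HalfNe
import Pool.Agent.R361.QF.BernHalf

/-!
# Functions with small support whose transform is supported on the irregular indices
-/

set_option autoImplicit false

open Finset

namespace Pool.Agent.N840.RC

open Pool.Agent.N840.CU (ctr)

variable {p : ℕ} [hp : Fact p.Prime]

/-- the sign of the absolutely least residue -/
def sg (x : ZMod p) : ℤ := if x = 0 then 0 else if x.val ≤ (p - 1) / 2 then 1 else -1

lemma sg_abs (x : ZMod p) : |sg x| ≤ 1 := by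
  unfold sg
  split_ifs <;> simp

lemma sg_neg (hp2 : p % 2 = 1) (x : ZMod p) : sg (-x) = - sg x := by
  unfold sg
  by_cases h : x = 0
  · simp [h]
  · have h1 : -x ≠ 0 := neg_ne_zero.2 h
    have : NeZero x := ⟨h⟩
    rw [if_neg h1, if_neg h, ZMod.val_neg_of_ne_zero]
    have h2 := ZMod.val_lt x
    have h3 : x.val ≠ 0 := fun h3 => h ((ZMod.val_eq_zero x).1 h3)
    have h4 := hp.out.two_le
    by_cases h5 : x.val ≤ (p - 1) / 2
    · rw [if_pos h5, if_neg (by omega)]
    · rw [if_neg h5, if_pos (by omega)]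
      norm_num

/-- the sum of an even function which vanishes at zero -/
lemma even_sum {R : Type} [CommRing R] (hp2 : p % 2 = 1) (G : ZMod p → R) (h0 : G 0 = 0)
    (hev : ∀ x, G (-x) = G x) : ∑ x, G x = 2 * ∑ a ∈ Icc 1 ((p - 1) / 2), G (a : ZMod p) := by
  set f := (p - 1) / 2 with hf
  have hpf : p = 2 * f + 1 := by
    have := hp.out.two_le
    omega
  have h1 : ∑ x, G x = ∑ k ∈ range p, G (k : ZMod p) := by
    refine Finset.sum_bij' (fun x _ => x.val) (fun k _ => (k : ZMod p)) ?_ ?_ ?_ ?_ ?_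
    · intro x _
      exact mem_range.2 (ZMod.val_lt x)
    · intro k _
      exact Finset.mem_univ _
    · intro x _
      exact ZMod.natCast_zmod_val x
    · intro k hk
      exact ZMod.val_cast_of_lt (mem_range.1 hk)
    · intro x _
      rw [ZMod.natCast_zmod_val]
  have h2 : ∑ k ∈ range p, G (k : ZMod p) = ∑ k ∈ range f, G ((k + 1 : ℕ) : ZMod p) +
      ∑ k ∈ range f, G ((k + 1 : ℕ) : ZMod p) := by
    have h3 : ∀ g : ℕ → R, ∑ k ∈ range p, g k = g 0 + (∑ k ∈ range f, g (k + 1) +
        ∑ k ∈ range f, g (f + k + 1)) := by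
      intro g
      rw [hpf, Finset.sum_range_succ', two_mul, Finset.sum_range_add]
      ring
    rw [h3 (fun k => G (k : ZMod p)), Nat.cast_zero, h0, zero_add]
    congr 1
    rw [← Finset.sum_range_reflect]
    refine Finset.sum_congr rfl fun k hk => ?_
    rw [mem_range] at hk
    rw [← hev]
    congr 1
    have h4 : ((f + (f - 1 - k) + 1 + (k + 1) : ℕ) : ZMod p) = 0 := by
      rw [ZMod.natCast_eq_zero_iff]
      exact ⟨1, by omega⟩
    rw [Nat.cast_add] at h4
    exact neg_eq_of_add_eq_zero_right h4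
  have h5 : ∑ a ∈ Icc 1 f, G (a : ZMod p) = ∑ k ∈ range f, G ((k + 1 : ℕ) : ZMod p) := by
    rw [Finset.range_eq_Ico, Finset.sum_Ico_add' (fun k : ℕ => G (k : ZMod p)) 0 f 1]
    refine Finset.sum_congr ?_ fun _ _ => rfl
    ext k
    rw [mem_Icc, mem_Ico]
    omega
  rw [h1, h2, h5]
  ring

lemma sg_cast {a : ℕ} (ha : a ∈ Icc 1 ((p - 1) / 2)) : sg (a : ZMod p) = 1 := by
  rw [mem_Icc] at ha
  have h1 := hp.out.two_le
  have h2 : a < p := by omega
  unfold sg
  rw [if_neg, ZMod.val_cast_of_lt h2, if_pos ha.2]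
  intro h
  rw [ZMod.natCast_eq_zero_iff] at h
  have := Nat.le_of_dvd (by omega) h
  omega

lemma sum_sg {R : Type} [CommRing R] (hp2 : p % 2 = 1) (F : ZMod p → R)
    (hodd : ∀ x, F (-x) = - F x) :
    ∑ x, ((sg x : ℤ) : R) * F x = 2 * ∑ a ∈ Icc 1 ((p - 1) / 2), F (a : ZMod p) := by
  rw [even_sum hp2 (fun x => ((sg x : ℤ) : R) * F x) (by simp [sg])
    (fun x => by simp only [sg_neg hp2, hodd]; push_cast; ring)]
  congr 1
  refine Finset.sum_congr rfl fun a ha => ?_
  rw [sg_cast ha]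
  simp

/-- the sum of the signs -/
def UU {ι : Type} [Fintype ι] (a : ι → ZMod p) (d : ι → ℤ) (b : ZMod p) : ℤ :=
  ∑ i, d i * sg ((a i)⁻¹ * b)

lemma UU_neg {ι : Type} [Fintype ι] (hp2 : p % 2 = 1) (a : ι → ZMod p) (d : ι → ℤ) (b : ZMod p) :
    UU a d (-b) = - UU a d b := by
  unfold UU
  rw [← Finset.sum_neg_distrib]
  refine Finset.sum_congr rfl fun i _ => ?_
  rw [mul_neg, sg_neg hp2]
  ring

/-- multiplicative functions -/
lemma UU_sum {ι : Type} [Fintype ι] {R : Type} [CommRing R] (a : ι → ZMod p)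
    (ha : ∀ i, a i ≠ 0) (d : ι → ℤ) (F : ZMod p → R) (hmul : ∀ x y, F (x * y) = F x * F y) :
    ∑ b, ((UU a d b : ℤ) : R) * F b =
      (∑ i, ((d i : ℤ) : R) * F (a i)) * ∑ y, ((sg y : ℤ) : R) * F y := by
  unfold UU
  simp only [Int.cast_sum, Finset.sum_mul]
  rw [Finset.sum_comm]
  refine Finset.sum_congr rfl fun i _ => ?_
  rw [← Equiv.sum_comp (Equiv.mulLeft₀ (a i) (ha i)), Finset.mul_sum]
  refine Finset.sum_congr rfl fun y _ => ?_
  have h1 : (Equiv.mulLeft₀ (a i) (ha i)) y = a i * y := rfl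
  rw [h1, inv_mul_cancel_left₀ (ha i), hmul]
  push_cast
  ring

/-- an odd function whose odd moments vanish is zero -/
lemma odd_zero (hp2 : p % 2 = 1) (V : ZMod p → ZMod p) (hV : ∀ x, V (-x) = - V x)
    (h : ∀ i ∈ Icc 1 ((p - 1) / 2), ∑ b, V b * b ^ (2 * i - 1) = 0) : ∀ b, V b = 0 := by
  classical
  set f := (p - 1) / 2 with hf
  have hpf : p = 2 * f + 1 := by
    have := hp.out.two_le
    omega
  have hp2' : (2 : ZMod p) ≠ 0 := by
    intro h0
    have : ((2 : ℕ) : ZMod p) = 0 := by exact_mod_cast h0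
    rw [ZMod.natCast_eq_zero_iff] at this
    have := Nat.le_of_dvd two_pos this
    have := hp.out.two_le
    omega
  intro b0
  by_cases hb0 : b0 = 0
  · subst hb0
    have h1 := hV 0
    rw [neg_zero] at h1
    have h2 : (2 : ZMod p) * V 0 = 0 := by linear_combination h1
    exact (mul_eq_zero.1 h2).resolve_left hp2'
  have h1 : ∑ i ∈ Icc 1 f, (∑ b, V b * b ^ (2 * i - 1)) * (b0⁻¹) ^ (2 * i - 1) = 0 :=
    Finset.sum_eq_zero fun i hi => by rw [h i hi, zero_mul]
  have h2 : ∑ i ∈ Icc 1 f, (∑ b, V b * b ^ (2 * i - 1)) * (b0⁻¹) ^ (2 * i - 1) =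
      ∑ b, V b * ∑ i ∈ Icc 1 f, (b * b0⁻¹) ^ (2 * i - 1) := by
    simp only [Finset.sum_mul, Finset.mul_sum]
    rw [Finset.sum_comm]
    refine Finset.sum_congr rfl fun b _ => Finset.sum_congr rfl fun i _ => ?_
    rw [mul_pow]
    ring
  have hS : ∀ z : ZMod p, ∑ i ∈ Icc 1 f, z ^ (2 * i - 1) =
      (if z = 1 then (f : ZMod p) else 0) - (if z = -1 then (f : ZMod p) else 0) := by
    intro z
    have h3 : ∑ i ∈ Icc 1 f, z ^ (2 * i - 1) = ∑ k ∈ range f, z * (z ^ 2) ^ k := by
      have : Icc 1 f = Ico (0 + 1) (f + 1) := by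
        ext k
        rw [mem_Icc, mem_Ico]
        omega
      rw [this, ← Finset.sum_Ico_add' (fun i => z ^ (2 * i - 1)) 0 f 1, ← Finset.range_eq_Ico]
      refine Finset.sum_congr rfl fun k _ => ?_
      rw [← pow_mul, ← pow_succ']
      congr 1
    rw [h3, ← Finset.mul_sum]
    have hne : (1 : ZMod p) ≠ -1 := by
      intro h4
      apply hp2'
      have : (2 : ZMod p) = 1 - -1 := by ring
      rw [this, ← h4, sub_self]
    by_cases hz1 : z = 1
    · subst hz1
      simp [hne]
    · by_cases hz2 : z = -1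
      · subst hz2
        simp [hne.symm]
      · rw [if_neg hz1, if_neg hz2, sub_zero]
        by_cases hz0 : z = 0
        · rw [hz0, zero_mul]
        · have h4 : z ^ 2 ≠ 1 := by
            intro h5
            rcases (sq_eq_one_iff (a := z)).1 h5 with h6 | h6
            · exact hz1 h6
            · exact hz2 h6
          rw [geom_sum_eq h4, ← pow_mul]
          have h5 : z ^ (2 * f) = 1 := by
            have : 2 * f = p - 1 := by omega
            rw [this]
            exact ZMod.pow_card_sub_one_eq_one hz0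
          rw [h5, sub_self, zero_div, mul_zero]
  rw [h2, Finset.sum_congr rfl fun b _ => by rw [hS (b * b0⁻¹)]] at h1
  have h3 : ∀ b : ZMod p, (b * b0⁻¹ = 1 ↔ b = b0) := by
    intro b
    rw [← div_eq_mul_inv, div_eq_one_iff_eq hb0]
  have h4 : ∀ b : ZMod p, (b * b0⁻¹ = -1 ↔ b = -b0) := by
    intro b
    rw [← div_eq_mul_inv, div_eq_iff hb0, neg_one_mul]
  simp only [h3, h4, mul_sub, Finset.sum_sub_distrib, mul_ite, mul_zero, Finset.sum_ite_eq',
    Finset.mem_univ, if_true, hV] at h1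
  have h5 : ((2 * f : ℕ) : ZMod p) * V b0 = 0 := by
    push_cast
    linear_combination h1
  have h6 : ((2 * f : ℕ) : ZMod p) ≠ 0 := by
    rw [Ne, ZMod.natCast_eq_zero_iff]
    intro h7
    have h8 : 0 < 2 * f := by
      have := hp.out.two_le
      omega
    have := Nat.le_of_dvd h8 h7
    omega
  exact (mul_eq_zero.1 h5).resolve_left h6

/-- `i` is a regular index, or the last index `(p - 1) / 2` -/
def Good (p i : ℕ) : Prop := 2 * i = p - 1 ∨ ¬ (p : ℤ) ∣ (bernoulli (2 * i)).num

/-- all the sums are divisible by `p` -/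
lemma UU_dvd {ι : Type} [Fintype ι] (hp2 : p % 2 = 1) (a : ι → ZMod p) (ha : ∀ i, a i ≠ 0)
    (d : ι → ℤ) (h : ∀ i ∈ Icc 1 ((p - 1) / 2), Good p i →
      ∑ j, ((d j : ℤ) : ZMod p) * a j ^ (2 * i - 1) = 0) (b : ZMod p) : (p : ℤ) ∣ UU a d b := by
  rw [← ZMod.intCast_zmod_eq_zero_iff_dvd]
  refine odd_zero hp2 (fun b => ((UU a d b : ℤ) : ZMod p))
    (fun x => by simp only [UU_neg hp2]; push_cast; ring) ?_ b
  intro i hi
  have h1 := UU_sum a ha d (fun x : ZMod p => x ^ (2 * i - 1)) (fun x y => mul_pow x y _)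
  rw [h1]
  rw [mem_Icc] at hi
  by_cases hg : Good p i
  · rw [h i (mem_Icc.2 hi) hg, zero_mul]
  · have h2 : ¬ 2 * i = p - 1 ∧ (p : ℤ) ∣ (bernoulli (2 * i)).num := by
      unfold Good at hg
      push Not at hg
      exact hg
    have h3 : ∑ y : ZMod p, ((sg y : ℤ) : ZMod p) * y ^ (2 * i - 1) = 0 := by
      rw [sum_sg hp2 (fun y : ZMod p => y ^ (2 * i - 1)) (fun x => by
        have : Odd (2 * i - 1) := ⟨i - 1, by omega⟩
        simp only [this.neg_pow])]
      have h4 := Pool.Agent.R361.QF.half_pow_sum p (by omega) (2 * i - 1) (by omega) (by omega)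
        (by rw [show 2 * i - 1 + 1 = 2 * i by omega]; exact h2.2)
      rw [h4, mul_zero]
    rw [h3, mul_zero]

/-- if all the sums vanish then the function vanishes -/
lemma UU_zero {ι : Type} [Fintype ι] (hp2 : p % 2 = 1) (a : ι → ZMod p) (ha : ∀ i, a i ≠ 0)
    (hinj : Function.Injective a) (hneg : ∀ i j, a i ≠ - a j) (d : ι → ℤ)
    (h : ∀ b, UU a d b = 0) : ∀ i, d i = 0 := by
  classical
  have key : ∀ χ : DirichletCharacter ℂ p, χ.Odd → ∑ i, ((d i : ℤ) : ℂ) * χ (a i) = 0 := by
    intro χ hχ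
    have h1 := UU_sum a ha d (fun x : ZMod p => χ x) (fun x y => map_mul χ x y)
    have h2 : ∑ b, ((UU a d b : ℤ) : ℂ) * χ b = 0 :=
      Finset.sum_eq_zero fun b _ => by rw [h b]; simp
    rw [h2] at h1
    have h3 : ∑ y : ZMod p, ((sg y : ℤ) : ℂ) * χ y ≠ 0 := by
      rw [sum_sg hp2 (fun y : ZMod p => χ y) (fun x => DirichletCharacter.Odd.eval_neg χ x hχ)]
      exact mul_ne_zero two_ne_zero (Pool.Agent.R361.QF.half_ne hp2 χ hχ)
    exact (mul_eq_zero.1 h1.symm).resolve_right h3
  intro i0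
  have h1 : ∑ χ : DirichletCharacter ℂ p, (1 - χ (-1)) * (χ (a i0)⁻¹ *
      ∑ i, ((d i : ℤ) : ℂ) * χ (a i)) = 0 := by
    refine Finset.sum_eq_zero fun χ _ => ?_
    rcases DirichletCharacter.even_or_odd χ with he | ho
    · rw [show χ (-1) = 1 from he, sub_self, zero_mul]
    · rw [key χ ho, mul_zero, mul_zero]
  have h2 : ∑ χ : DirichletCharacter ℂ p, (1 - χ (-1)) * (χ (a i0)⁻¹ *
      ∑ i, ((d i : ℤ) : ℂ) * χ (a i)) = ∑ i, ((d i : ℤ) : ℂ) *
        ((if a i0 = a i then (p.totient : ℂ) else 0) -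
          (if a i0 = - a i then (p.totient : ℂ) else 0)) := by
    have h3 : ∀ i, (if a i0 = a i then (p.totient : ℂ) else 0) -
        (if a i0 = - a i then (p.totient : ℂ) else 0) =
        ∑ χ : DirichletCharacter ℂ p, (χ (a i0)⁻¹ * χ (a i) - χ (a i0)⁻¹ * χ (- a i)) := by
      intro i
      rw [Finset.sum_sub_distrib,
        DirichletCharacter.sum_char_inv_mul_char_eq ℂ (Ne.isUnit (ha i0)) (a i),
        DirichletCharacter.sum_char_inv_mul_char_eq ℂ (Ne.isUnit (ha i0)) (- a i)]
    simp only [h3, Finset.mul_sum]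
    rw [Finset.sum_comm]
    refine Finset.sum_congr rfl fun i _ => Finset.sum_congr rfl fun χ _ => ?_
    have h4 : χ (- a i) = χ (-1) * χ (a i) := by
      rw [← map_mul, neg_one_mul]
    rw [h4]
    ring
  rw [h2] at h1
  have h3 : ∑ i, ((d i : ℤ) : ℂ) * ((if a i0 = a i then (p.totient : ℂ) else 0) -
          (if a i0 = - a i then (p.totient : ℂ) else 0)) = ((d i0 : ℤ) : ℂ) * p.totient := by
    rw [Finset.sum_eq_single i0]
    · rw [if_pos rfl, if_neg (hneg i0 i0), sub_zero]
    · intro i _ hi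
      rw [if_neg (fun h4 => hi (hinj h4).symm), if_neg (hneg i0 i), sub_zero, mul_zero]
    · intro h4
      exact absurd (Finset.mem_univ _) h4
  rw [h3] at h1
  rcases mul_eq_zero.1 h1 with h4 | h4
  · exact_mod_cast h4
  · have := Nat.totient_pos.2 hp.out.pos
    exact absurd h4 (by exact_mod_cast this.ne')

/-- the functions on the family whose transform vanishes at the good indices -/
def WW {ι : Type} [Fintype ι] (a : ι → ZMod p) : Set (ι → ZMod p) :=
  {c | ∀ i ∈ Icc 1 ((p - 1) / 2), Good p i → ∑ j, c j * a j ^ (2 * i - 1) = 0}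

/-- The main inequality. -/
theorem supp {ι : Type} [Fintype ι] [DecidableEq ι] (hp2 : p % 2 = 1) (a : ι → ZMod p)
    (ha : ∀ i, a i ≠ 0) (hinj : Function.Injective a) (hneg : ∀ i j, a i ≠ - a j) :
    (Nat.card (WW a) : ℝ) ^ 2 ≤
      4 * (2 * (Fintype.card ι) * Real.log (2 * p)) ^ (Fintype.card ι) := by
  classical
  have hp3 : 3 ≤ p := by
    have := hp.out.two_le
    omega
  have hpR : (3 : ℝ) ≤ p := by exact_mod_cast hp3
  set n := Fintype.card ι with hn
  rcases Nat.eq_zero_or_pos n with h0 | h0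
  · -- the empty family
    have : IsEmpty ι := Fintype.card_eq_zero_iff.1 h0
    have h1 : Nat.card (WW a) ≤ 1 := by
      rw [Nat.card_eq_fintype_card, Fintype.card_le_one_iff_subsingleton]
      infer_instance
    have h2 : (Nat.card (WW a) : ℝ) ≤ 1 := by exact_mod_cast h1
    have h3 : (0 : ℝ) ≤ (Nat.card (WW a) : ℝ) := Nat.cast_nonneg _
    rw [h0, pow_zero, mul_one]
    nlinarith
  have hn0 : (0 : ℝ) < n := by exact_mod_cast h0
  have hlog : 0 < Real.log (2 * p) := Real.log_pos (by linarith)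
  set T : ℝ := √(2 * n * Real.log (2 * p)) with hT
  have hT2 : T ^ 2 = 2 * n * Real.log (2 * p) := Real.sq_sqrt (by positivity)
  have hT0 : 0 < T := Real.sqrt_pos.2 (by positivity)
  set H : ℕ := ⌊(p : ℝ) / T⌋₊ with hH
  have hHT : (H : ℝ) * T ≤ p := by
    have := Nat.floor_le (show 0 ≤ (p : ℝ) / T by positivity)
    rwa [le_div_iff₀ hT0] at this
  have hHT' : (p : ℝ) < (H + 1) * T := by
    have := Nat.lt_floor_add_one ((p : ℝ) / T)
    rwa [div_lt_iff₀ hT0] at this
  -- good points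
  have hhalf := half (ι := ι) (β := {b : ZMod p // b ≠ 0}) h0 H
    (fun b i => ((sg ((a i)⁻¹ * (b : ZMod p)) : ℤ) : ℝ)) (fun b i => by
      rw [← Int.cast_abs]
      exact_mod_cast sg_abs _) (p : ℝ) T hT0 hHT (by linarith) (by
      have h1 : Fintype.card {b : ZMod p // b ≠ 0} = p - 1 := by
        rw [Fintype.card_subtype_compl, ZMod.card, Fintype.card_subtype_eq]
      rw [h1, hT2, Nat.cast_sub hp.out.one_le, Nat.cast_one]
      have h2 : 2 * (n : ℝ) * Real.log (2 * p) / (2 * n) = Real.log (2 * p) := by field_simp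
      rw [h2, Real.exp_neg, Real.exp_log (by linarith), ← div_eq_mul_inv, div_le_one (by linarith)]
      linarith)
  set G := (univ : Finset (ι → Fin (H + 1))).filter (fun e =>
      ∀ b : {b : ZMod p // b ≠ 0}, ∑ i, ctr H (e i) * ((sg ((a i)⁻¹ * (b : ZMod p)) : ℤ) : ℝ) < p)
    with hG
  -- the map
  let F : (WW a) × G → (ι → ZMod p) := fun we i =>
    (we.1 : ι → ZMod p) i + (((we.2 : ι → Fin (H + 1)) i : ℕ) : ZMod p)
  have hFinj : Function.Injective F := by
    rintro ⟨w, e⟩ ⟨w', e'⟩ hF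
    set d : ι → ℤ := fun i => (((e : ι → Fin (H + 1)) i : ℕ) : ℤ) -
      (((e' : ι → Fin (H + 1)) i : ℕ) : ℤ) with hd
    have h1 : ∀ i, ((d i : ℤ) : ZMod p) = (w' : ι → ZMod p) i - (w : ι → ZMod p) i := by
      intro i
      have h2 := congrFun hF i
      simp only [F] at h2
      simp only [hd]
      push_cast
      linear_combination h2
    have h2 : ∀ b, (p : ℤ) ∣ UU a d b := by
      intro b
      refine UU_dvd hp2 a ha d (fun i hi hg => ?_) b
      have h3 := w.2 i hi hg
      have h4 := w'.2 i hi hg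
      simp only [h1, sub_mul, Finset.sum_sub_distrib, h3, h4, sub_self]
    have h3 : ∀ b, |UU a d b| < p := by
      intro b
      by_cases hb : b = 0
      · have : UU a d b = 0 := by
          unfold UU
          refine Finset.sum_eq_zero fun i _ => ?_
          rw [hb, mul_zero]
          simp [sg]
        rw [this, abs_zero]
        exact_mod_cast hp.out.pos
      · have hb' : -b ≠ 0 := neg_ne_zero.2 hb
        have e1 := (Finset.mem_filter.1 e.2).2
        have e2 := (Finset.mem_filter.1 e'.2).2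
        have h4 : ((UU a d b : ℤ) : ℝ) = 1 / 2 *
            (∑ i, ctr H ((e : ι → Fin (H + 1)) i) * ((sg ((a i)⁻¹ * b) : ℤ) : ℝ) +
             ∑ i, ctr H ((e' : ι → Fin (H + 1)) i) * ((sg ((a i)⁻¹ * (-b)) : ℤ) : ℝ)) := by
          unfold UU
          rw [← Finset.sum_add_distrib, Finset.mul_sum]
          push_cast
          refine Finset.sum_congr rfl fun i _ => ?_
          rw [mul_neg, sg_neg hp2]
          simp only [hd, ctr]
          push_cast
          ring
        have h5 : ((UU a d b : ℤ) : ℝ) = -(1 / 2 *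
            (∑ i, ctr H ((e : ι → Fin (H + 1)) i) * ((sg ((a i)⁻¹ * (-b)) : ℤ) : ℝ) +
             ∑ i, ctr H ((e' : ι → Fin (H + 1)) i) * ((sg ((a i)⁻¹ * b) : ℤ) : ℝ))) := by
          unfold UU
          rw [← Finset.sum_add_distrib, Finset.mul_sum, ← Finset.sum_neg_distrib]
          push_cast
          refine Finset.sum_congr rfl fun i _ => ?_
          rw [mul_neg, sg_neg hp2]
          simp only [hd, ctr]
          push_cast
          ring
        have h6 := e1 ⟨b, hb⟩
        have h7 := e1 ⟨-b, hb'⟩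
        have h8 := e2 ⟨b, hb⟩
        have h9 := e2 ⟨-b, hb'⟩
        simp only at h6 h7 h8 h9
        have h10 : |((UU a d b : ℤ) : ℝ)| < p := by
          rw [abs_lt]
          constructor
          · rw [h5]
            linarith
          · rw [h4]
            linarith
        have : ((|UU a d b| : ℤ) : ℝ) < ((p : ℤ) : ℝ) := by
          rw [Int.cast_abs]
          exact_mod_cast h10
        exact_mod_cast this
    have h4 := UU_zero hp2 a ha hinj hneg d
      (fun b => Int.eq_zero_of_abs_lt_dvd (h2 b) (h3 b))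
    have h5 : e = e' := by
      apply Subtype.ext
      funext i
      apply Fin.ext
      have := h4 i
      simp only [hd] at this
      omega
    subst h5
    have h6 : w = w' := by
      apply Subtype.ext
      funext i
      have h7 := congrFun hF i
      simp only [F] at h7
      exact add_right_cancel h7
    rw [h6]
  have hcard := Nat.card_le_card_of_injective F hFinj
  rw [Nat.card_prod, Nat.card_fun, Nat.card_zmod, Nat.card_eq_fintype_card (α := ι), ← hn,
    Nat.card_eq_fintype_card (α := G), Fintype.card_coe] at hcard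
  -- conclusion
  set W := Nat.card (WW a) with hW
  have h1 : W * (H + 1) ^ n ≤ 2 * p ^ n := by
    calc W * (H + 1) ^ n ≤ W * (2 * G.card) := Nat.mul_le_mul_left _ hhalf
      _ = 2 * (W * G.card) := by ring
      _ ≤ _ := by omega
  have h2 : (W : ℝ) * (H + 1) ^ n ≤ 2 * p ^ n := by exact_mod_cast h1
  have h3 : (W : ℝ) * (H + 1) ^ n ≤ (2 * T ^ n) * (H + 1) ^ n := by
    calc (W : ℝ) * (H + 1) ^ n ≤ 2 * p ^ n := h2
      _ ≤ 2 * ((H + 1) * T) ^ n := by
          have := pow_le_pow_left₀ (by positivity) hHT'.le n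
          linarith
      _ = _ := by rw [mul_pow]; ring
  have h4 : (W : ℝ) ≤ 2 * T ^ n := le_of_mul_le_mul_right h3 (by positivity)
  calc (W : ℝ) ^ 2 ≤ (2 * T ^ n) ^ 2 := pow_le_pow_left₀ (Nat.cast_nonneg _) h4 2
    _ = 4 * (T ^ 2) ^ n := by rw [mul_pow, ← pow_mul, ← pow_mul, mul_comm n 2]; norm_num
    _ = _ := by rw [hT2]

end Pool.Agent.N840.RC
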