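import Mathlib
import Pool.Agent.N840.RC.Half

/-!
# Regular indices in the classes modulo a divisor of `(p - 1) / 2`
-/

set_option autoImplicit false

open Finset

namespace Pool.Agent.N840.RC

/-- the regular indices `i` of `p`, `1 ≤ i ≤ (p - 3) / 2`, with `i % h = j` -/
noncomputable def reg (p h j : ℕ) : Finset ℕ :=
  (Icc 1 ((p - 3) / 2)).filter (fun i : ℕ => i % h = j ∧ ¬ (p : ℤ) ∣ (bernoulli (2 * i)).num)

lemma orth {F : Type} [Field F] {h : ℕ} (w : F) (hw : IsPrimitiveRoot w h) (k : ℕ) :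
    ∑ l ∈ range h, (w ^ k) ^ l = if h ∣ k then (h : F) else 0 := by
  split_ifs with hk
  · obtain ⟨t, rfl⟩ := hk
    rw [pow_mul, hw.pow_eq_one, one_pow]
    simp
  · have h1 : w ^ k ≠ 1 := fun h2 => hk (hw.dvd_of_pow_eq_one k h2)
    rw [geom_sum_eq h1, ← pow_mul, mul_comm k h, pow_mul, hw.pow_eq_one, one_pow, sub_self,
      zero_div]

variable {p : ℕ} [hp : Fact p.Prime]

/-- the indices of one class -/
noncomputable def S (p h j : ℕ) : Finset ℕ := by
  classical
  exact (Icc 1 ((p - 1) / 2)).filter (fun i : ℕ => i % h = j ∧ Good p i)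

lemma S_card (hp2 : p % 2 = 1) {h j : ℕ} (hh : h ∣ (p - 1) / 2) :
    (S p h j).card ≤ (reg p h j).card + if j = 0 then 1 else 0 := by
  classical
  have hsub : S p h j ⊆ reg p h j ∪ (if j = 0 then {(p - 1) / 2} else ∅) := by
    intro i hi
    unfold S at hi
    rw [mem_filter, mem_Icc] at hi
    obtain ⟨⟨h1, h2⟩, h3, h4⟩ := hi
    rw [mem_union]
    by_cases h5 : i = (p - 1) / 2
    · right
      have h6 : j = 0 := by
        rw [← h3, h5]
        exact Nat.mod_eq_zero_of_dvd hh
      rw [if_pos h6, mem_singleton]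
      exact h5
    · left
      unfold reg
      rw [mem_filter, mem_Icc]
      refine ⟨⟨h1, by omega⟩, h3, ?_⟩
      rcases h4 with h6 | h6
      · omega
      · exact h6
  refine (card_le_card hsub).trans ((card_union_le _ _).trans ?_)
  apply Nat.add_le_add_left
  split_ifs <;> simp

/-- the linear conditions in one class -/
noncomputable def LL (γ : ZMod p) (n h j : ℕ) :
    (Fin n → ZMod p) →ₗ[ZMod p] ((S p h j) → ZMod p) :=
  LinearMap.pi fun i => ∑ r : Fin n, (γ ^ ((r : ℕ) * (2 * (i : ℕ) - 1))) •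
    (LinearMap.proj r : (Fin n → ZMod p) →ₗ[ZMod p] ZMod p)

lemma LL_apply (γ : ZMod p) (n h j : ℕ) (u : Fin n → ZMod p) (i : S p h j) :
    LL γ n h j u i = ∑ r : Fin n, γ ^ ((r : ℕ) * (2 * (i : ℕ) - 1)) * u r := by
  unfold LL
  simp [LinearMap.pi_apply, LinearMap.sum_apply]

lemma ker_card (γ : ZMod p) (n h j : ℕ) :
    p ^ (n - (S p h j).card) ≤ Nat.card (LinearMap.ker (LL γ n h j)) := by
  classical
  have h1 := LinearMap.finrank_range_add_finrank_ker (LL γ n h j)
  have h2 : Module.finrank (ZMod p) (LinearMap.range (LL γ n h j)) ≤ (S p h j).card := by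
    refine (Submodule.finrank_le _).trans (le_of_eq ?_)
    rw [Module.finrank_fintype_fun_eq_card, Fintype.card_coe]
  rw [Module.finrank_fintype_fun_eq_card, Fintype.card_fin] at h1
  rw [Nat.card_eq_fintype_card, Module.card_eq_pow_finrank (K := ZMod p), ZMod.card]
  exact Nat.pow_le_pow_right hp.out.pos (by omega)

/-- The number of functions on the family is at least the product over the classes. -/
theorem lower (hp2 : p % 2 = 1) (h n m : ℕ) (hh : 0 < h) (hm : (p - 1) / 2 = m * h) (hn : n ≤ m)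
    (γ : ZMod p) (hγ : IsPrimitiveRoot γ (p - 1)) :
    p ^ (∑ j ∈ range h, (n - (S p h j).card)) ≤
      Nat.card (WW (fun rl : Fin n × Fin h => γ ^ ((rl.1 : ℕ) + m * (rl.2 : ℕ)))) := by
  classical
  have hp3 := hp.out.two_le
  obtain ⟨τ, hτ⟩ : ∃ τ : ZMod p, τ = γ ^ m := ⟨_, rfl⟩
  have hm0 : 0 < m := by
    rcases Nat.eq_zero_or_pos m with h0 | h0
    · rw [h0, zero_mul] at hm
      omega
    · exact h0
  have hω : IsPrimitiveRoot (τ ^ 2) h := by
    rw [hτ, ← pow_mul]
    refine hγ.pow (by omega) ?_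
    have : p - 1 = 2 * (m * h) := by omega
    rw [this]
    ring
  have hh0 : (h : ZMod p) ≠ 0 := by
    rw [Ne, ZMod.natCast_eq_zero_iff]
    intro h1
    have h2 := Nat.le_of_dvd hh h1
    have h3 : h ≤ m * h := Nat.le_mul_of_pos_left h hm0
    omega
  -- the map
  let C : (Fin h → (Fin n → ZMod p)) → (Fin n × Fin h → ZMod p) := fun u rl =>
    ∑ j : Fin h, u j rl.1 * τ ^ ((rl.2 : ℕ) * (2 * h + 1 - 2 * (j : ℕ)))
  have hK : ∀ (u : Fin h → (Fin n → ZMod p)) (r : Fin n) (i : ℕ), 1 ≤ i →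
      ∑ l : Fin h, C u (r, l) * τ ^ ((l : ℕ) * (2 * i - 1)) =
        h * u ⟨i % h, Nat.mod_lt _ hh⟩ r := by
    intro u r i hi
    simp only [C, Finset.sum_mul]
    rw [Finset.sum_comm]
    have h1 : ∀ j : Fin h, ∑ l : Fin h, u j r * τ ^ ((l : ℕ) * (2 * h + 1 - 2 * (j : ℕ))) *
        τ ^ ((l : ℕ) * (2 * i - 1)) = u j r * (if h ∣ h + i - j then (h : ZMod p) else 0) := by
      intro j
      rw [← orth (τ ^ 2) hω (h + i - j), Finset.sum_range, Finset.mul_sum]
      refine Finset.sum_congr rfl fun l _ => ?_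
      have hj := j.2
      have h2 : 2 * h + 1 - 2 * (j : ℕ) + (2 * i - 1) = 2 * (h + i - j) := by omega
      rw [mul_assoc, ← pow_add, ← Nat.mul_add, h2, ← pow_mul, ← pow_mul]
      congr 2
      ring
    rw [Finset.sum_congr rfl fun j _ => h1 j, Finset.sum_eq_single ⟨i % h, Nat.mod_lt _ hh⟩]
    · rw [if_pos]
      · ring
      · have h2 := Nat.mod_lt i hh
        have h3 := Nat.div_add_mod i h
        have h4 : h + i - i % h = h * (1 + i / h) := by
          rw [mul_add, mul_one]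
          omega
        simp only [h4]
        exact dvd_mul_right _ _
    · intro j _ hj
      rw [if_neg, mul_zero]
      intro h2
      apply hj
      apply Fin.ext
      simp only
      have hj2 := j.2
      obtain ⟨t, ht⟩ := h2
      have h3 : h + i = j + h * t := by omega
      have h4 : (h + i) % h = (j + h * t) % h := by rw [h3]
      rw [Nat.add_mod_left, Nat.add_mul_mod_self_left, Nat.mod_eq_of_lt hj2] at h4
      exact h4.symm
    · intro h2
      exact absurd (Finset.mem_univ _) h2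
  have hmem : ∀ u : (j : Fin h) → LinearMap.ker (LL (p := p) γ n h j),
      C (fun j => (u j : Fin n → ZMod p)) ∈
        WW (fun rl : Fin n × Fin h => γ ^ ((rl.1 : ℕ) + m * (rl.2 : ℕ))) := by
    intro u i hi hg
    have hi1 := (mem_Icc.1 hi).1
    rw [Fintype.sum_prod_type]
    have h1 : ∀ r : Fin n, ∑ l : Fin h, C (fun j => (u j : Fin n → ZMod p)) (r, l) *
        (γ ^ ((r : ℕ) + m * (l : ℕ))) ^ (2 * i - 1) =
        h * (γ ^ ((r : ℕ) * (2 * i - 1)) *
          (u ⟨i % h, Nat.mod_lt _ hh⟩ : Fin n → ZMod p) r) := by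
      intro r
      have h2 := hK (fun j => (u j : Fin n → ZMod p)) r i hi1
      have h3 : ∀ l : Fin h, C (fun j => (u j : Fin n → ZMod p)) (r, l) *
        (γ ^ ((r : ℕ) + m * (l : ℕ))) ^ (2 * i - 1) = γ ^ ((r : ℕ) * (2 * i - 1)) *
        (C (fun j => (u j : Fin n → ZMod p)) (r, l) * τ ^ ((l : ℕ) * (2 * i - 1))) := by
        intro l
        rw [hτ, ← pow_mul, ← pow_mul, add_mul, pow_add]
        ring
      rw [Finset.sum_congr rfl fun l _ => h3 l, ← Finset.mul_sum, h2]
      ring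
    rw [Finset.sum_congr rfl fun r _ => h1 r, ← Finset.mul_sum]
    have hiS : i ∈ S p h (i % h) := by
      unfold S
      rw [mem_filter]
      exact ⟨hi, rfl, hg⟩
    have h4 := (u ⟨i % h, Nat.mod_lt _ hh⟩).2
    rw [LinearMap.mem_ker] at h4
    have h5 := congrFun h4 ⟨i, hiS⟩
    rw [LL_apply] at h5
    simp only [Pi.zero_apply] at h5
    rw [h5, mul_zero]
  let Ψ : ((j : Fin h) → LinearMap.ker (LL (p := p) γ n h j)) →
      WW (fun rl : Fin n × Fin h => γ ^ ((rl.1 : ℕ) + m * (rl.2 : ℕ))) := fun u => ⟨_, hmem u⟩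
  have hΨ : Function.Injective Ψ := by
    intro u v huv
    have h1 : C (fun j => (u j : Fin n → ZMod p)) = C (fun j => (v j : Fin n → ZMod p)) :=
      congrArg Subtype.val huv
    funext j
    apply Subtype.ext
    funext r
    have h2 := hK (fun j => (u j : Fin n → ZMod p)) r (h + j) (by omega)
    have h3 := hK (fun j => (v j : Fin n → ZMod p)) r (h + j) (by omega)
    rw [h1, h3] at h2
    have h4 : (⟨(h + (j : ℕ)) % h, Nat.mod_lt _ hh⟩ : Fin h) = j := by
      apply Fin.ext
      simp only [Nat.add_mod_left]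
      exact Nat.mod_eq_of_lt j.2
    have h5 := mul_left_cancel₀ hh0 h2
    have e1 := congrArg (fun k => (u k : Fin n → ZMod p) r) h4
    have e2 := congrArg (fun k => (v k : Fin n → ZMod p) r) h4
    exact e1.symm.trans (h5.symm.trans e2)
  have h1 := Nat.card_le_card_of_injective Ψ hΨ
  rw [Nat.card_pi] at h1
  refine le_trans ?_ h1
  rw [← Finset.prod_pow_eq_pow_sum, Finset.prod_range]
  exact Finset.prod_le_prod' fun j _ => ker_card γ n h j

/-- Regular indices in residue classes. -/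
theorem classes {p : ℕ} (hpp : p.Prime) (hp2 : p ≠ 2) (h n : ℕ) (hh : h ∣ (p - 1) / 2)
    (hn : n * h ≤ (p - 1) / 2) :
    (p : ℝ) ^ (2 * ∑ j ∈ range h, (n - ((reg p h j).card + if j = 0 then 1 else 0))) ≤
      4 * (2 * (n * h : ℕ) * Real.log (2 * p)) ^ (n * h) := by
  classical
  have : Fact p.Prime := ⟨hpp⟩
  have hodd : p % 2 = 1 := by
    rcases hpp.eq_two_or_odd with h1 | h1
    · exact absurd h1 hp2
    · exact h1
  have hp3 := hpp.two_le
  obtain ⟨m, hm⟩ := hh
  rw [mul_comm] at hm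
  have hh0 : 0 < h := by
    rcases Nat.eq_zero_or_pos h with h0 | h0
    · rw [h0, mul_zero] at hm
      omega
    · exact h0
  have hm0 : 0 < m := by
    rcases Nat.eq_zero_or_pos m with h0 | h0
    · rw [h0, zero_mul] at hm
      omega
    · exact h0
  have hnm : n ≤ m := by
    rw [hm] at hn
    exact Nat.le_of_mul_le_mul_right hn hh0
  -- a primitive root
  obtain ⟨g, hg⟩ := IsCyclic.exists_generator (α := (ZMod p)ˣ)
  have h1 : orderOf g = p - 1 := by
    rw [orderOf_eq_card_of_forall_mem_zpowers hg, Nat.card_eq_fintype_card, ZMod.card_units]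
  have h2 : IsPrimitiveRoot g (p - 1) := by rw [← h1]; exact IsPrimitiveRoot.orderOf g
  have h3 : IsPrimitiveRoot ((g : (ZMod p)ˣ) : ZMod p) (p - 1) := IsPrimitiveRoot.coe_units_iff.2 h2
  set γ : ZMod p := (g : ZMod p) with hγ
  have hγ0 : γ ≠ 0 := g.ne_zero
  have hhalf : γ ^ (m * h) = -1 := by
    have h4 : (γ ^ (m * h)) ^ 2 = 1 := by
      rw [← pow_mul]
      have : m * h * 2 = p - 1 := by omega
      rw [this]
      exact h3.pow_eq_one
    rcases sq_eq_one_iff.1 h4 with h5 | h5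
    · exfalso
      have h6 := h3.dvd_of_pow_eq_one _ h5
      have := Nat.le_of_dvd (by omega) h6
      omega
    · exact h5
  have hE : ∀ rl : Fin n × Fin h, (rl.1 : ℕ) + m * (rl.2 : ℕ) < m * h := by
    intro rl
    have h5 := rl.1.2
    have h6 : (rl.2 : ℕ) + 1 ≤ h := rl.2.2
    have h7 := Nat.mul_le_mul_left m h6
    rw [mul_add, mul_one] at h7
    omega
  have hinjE : ∀ x y : Fin n × Fin h, (x.1 : ℕ) + m * (x.2 : ℕ) = (y.1 : ℕ) + m * (y.2 : ℕ) →
      x = y := by
    intro x y hxy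
    have hx := x.1.2
    have hy := y.1.2
    have h5 : (x.2 : ℕ) = y.2 := by
      have h6 : ((x.1 : ℕ) + m * (x.2 : ℕ)) / m = ((y.1 : ℕ) + m * (y.2 : ℕ)) / m := by rw [hxy]
      rwa [Nat.add_mul_div_left _ _ hm0, Nat.add_mul_div_left _ _ hm0,
        Nat.div_eq_of_lt (by omega), Nat.div_eq_of_lt (by omega), zero_add, zero_add] at h6
    have h6 : (x.1 : ℕ) = y.1 := by
      rw [h5] at hxy
      omega
    exact Prod.ext (Fin.ext h6) (Fin.ext h5)
  have hsupp := supp hodd (fun rl : Fin n × Fin h => γ ^ ((rl.1 : ℕ) + m * (rl.2 : ℕ)))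
    (fun rl => pow_ne_zero _ hγ0)
    (fun x y hxy => by
      apply hinjE
      have hx := hE x
      have hy := hE y
      exact h3.pow_inj (by omega) (by omega) hxy)
    (fun x y hxy => by
      have hx := hE x
      have hy := hE y
      rw [← neg_one_mul, ← hhalf, ← pow_add] at hxy
      have := h3.pow_inj (by omega) (by omega) hxy
      omega)
  rw [Fintype.card_prod, Fintype.card_fin, Fintype.card_fin] at hsupp
  have hlow := lower hodd h n m hh0 hm hnm γ h3
  set W := Nat.card (WW (fun rl : Fin n × Fin h => γ ^ ((rl.1 : ℕ) + m * (rl.2 : ℕ)))) with hW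
  have h4 : p ^ (∑ j ∈ range h, (n - ((reg p h j).card + if j = 0 then 1 else 0))) ≤ W := by
    refine le_trans (Nat.pow_le_pow_right hpp.pos ?_) hlow
    refine Finset.sum_le_sum fun j _ => ?_
    have := S_card (p := p) hodd (h := h) (j := j) ⟨m, by rw [hm]; ring⟩
    omega
  have h5 : (p : ℝ) ^ (∑ j ∈ range h, (n - ((reg p h j).card + if j = 0 then 1 else 0))) ≤ W := by
    exact_mod_cast h4
  calc (p : ℝ) ^ (2 * ∑ j ∈ range h, (n - ((reg p h j).card + if j = 0 then 1 else 0)))
      = ((p : ℝ) ^ (∑ j ∈ range h, (n - ((reg p h j).card + if j = 0 then 1 else 0)))) ^ 2 := by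
        rw [mul_comm, pow_mul]
    _ ≤ (W : ℝ) ^ 2 := pow_le_pow_left₀ (by positivity) h5 2
    _ ≤ _ := by exact_mod_cast hsupp

end Pool.Agent.N840.RC
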