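import Mathlib
import Pool.Agent.N840.RC.Class

/-!
# Sets of residues, asymptotic form
-/

set_option autoImplicit false

open Finset

namespace Pool.Agent.N840.RC

/-- the form with sets of integers -/
theorem sets {p : ℕ} (hpp : p.Prime) (hp2 : p ≠ 2) (A : Finset ℕ) (hA : A ⊆ Icc 1 ((p - 1) / 2)) :
    (Nat.card {c : A → ZMod p // ∀ i ∈ Icc 1 ((p - 1) / 2),
      (2 * i = p - 1 ∨ ¬ (p : ℤ) ∣ (bernoulli (2 * i)).num) →
        ∑ a, c a * (((a : ℕ) : ZMod p)) ^ (2 * i - 1) = 0} : ℝ) ^ 2 ≤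
      4 * (2 * A.card * Real.log (2 * p)) ^ A.card := by
  classical
  have : Fact p.Prime := ⟨hpp⟩
  have hodd : p % 2 = 1 := by
    rcases hpp.eq_two_or_odd with h1 | h1
    · exact absurd h1 hp2
    · exact h1
  have hmem : ∀ a : A, 1 ≤ (a : ℕ) ∧ (a : ℕ) ≤ (p - 1) / 2 := fun a => mem_Icc.1 (hA a.2)
  have h1 := supp hodd (fun a : A => (((a : ℕ) : ℕ) : ZMod p))
    (fun a h => by
      obtain ⟨h2, h3⟩ := hmem a
      rw [ZMod.natCast_eq_zero_iff] at h
      have := Nat.le_of_dvd (by omega) h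
      omega)
    (fun a b h => by
      obtain ⟨h2, h3⟩ := hmem a
      obtain ⟨h4, h5⟩ := hmem b
      have h6 := congrArg ZMod.val h
      simp only at h6
      rw [ZMod.val_cast_of_lt (by omega), ZMod.val_cast_of_lt (by omega)] at h6
      exact Subtype.ext h6)
    (fun a b h => by
      obtain ⟨h2, h3⟩ := hmem a
      obtain ⟨h4, h5⟩ := hmem b
      have h6 : (((a : ℕ) + (b : ℕ) : ℕ) : ZMod p) = 0 := by
        push_cast
        rw [h]
        ring
      rw [ZMod.natCast_eq_zero_iff] at h6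
      have := Nat.le_of_dvd (by omega) h6
      omega)
  rw [Fintype.card_coe] at h1
  exact h1

/-- short exponential polynomials do not vanish at all regular indices -/
theorem short {p : ℕ} (hpp : p.Prime) (hp2 : p ≠ 2) (A : Finset ℕ) (hA : A ⊆ Icc 1 ((p - 1) / 2))
    (hlt : 4 * (2 * A.card * Real.log (2 * p)) ^ A.card < (p : ℝ) ^ 2) (c : ℕ → ZMod p)
    (hc : ∀ i ∈ Icc 1 ((p - 1) / 2), (2 * i = p - 1 ∨ ¬ (p : ℤ) ∣ (bernoulli (2 * i)).num) →
        ∑ a ∈ A, c a * ((a : ℕ) : ZMod p) ^ (2 * i - 1) = 0) : ∀ a ∈ A, c a = 0 := by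
  classical
  have : Fact p.Prime := ⟨hpp⟩
  by_contra hcon
  push Not at hcon
  obtain ⟨a0, ha0, hne⟩ := hcon
  have h1 := sets hpp hp2 A hA
  set W := {c : A → ZMod p // ∀ i ∈ Icc 1 ((p - 1) / 2),
      (2 * i = p - 1 ∨ ¬ (p : ℤ) ∣ (bernoulli (2 * i)).num) →
        ∑ a, c a * (((a : ℕ) : ZMod p)) ^ (2 * i - 1) = 0} with hW
  let F : ZMod p → W := fun t => ⟨fun a => t * c a, fun i hi hg => by
    have h2 := hc i hi hg
    rw [← Finset.sum_coe_sort A] at h2
    have h3 : ∑ a : A, t * c a * (((a : ℕ) : ZMod p)) ^ (2 * i - 1) =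
        t * ∑ a : A, c a * (((a : ℕ) : ZMod p)) ^ (2 * i - 1) := by
      rw [Finset.mul_sum]
      exact Finset.sum_congr rfl fun a _ => by ring
    rw [h3, h2, mul_zero]⟩
  have hF : Function.Injective F := by
    intro s t hst
    have h2 := congrFun (congrArg Subtype.val hst) ⟨a0, ha0⟩
    simp only [F] at h2
    exact mul_right_cancel₀ hne h2
  have h2 := Nat.card_le_card_of_injective F hF
  rw [Nat.card_zmod] at h2
  have h3 : (p : ℝ) ≤ Nat.card W := by exact_mod_cast h2
  have h4 : (p : ℝ) ^ 2 ≤ (Nat.card W : ℝ) ^ 2 := pow_le_pow_left₀ (Nat.cast_nonneg _) h3 2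
  linarith

/-- the asymptotic form -/
theorem asym (ε : ℝ) (hε : 0 < ε) : ∃ P : ℕ, ∀ p : ℕ, P ≤ p → p.Prime → ∀ h n : ℕ,
    h ∣ (p - 1) / 2 → 1 ≤ n → n * h ≤ (p - 1) / 2 →
    ((∑ j ∈ range h, (n - ((reg p h j).card + if j = 0 then 1 else 0)) : ℕ) : ℝ) ≤
      (Real.log (n * h : ℕ) / (2 * Real.log p) + ε) * (n * h : ℕ) := by
  -- `log 4 + log 2 + log (2 L) ≤ 2 ε L` for large `L`
  have h1 : ∀ᶠ x : ℝ in Filter.atTop, (Real.log 4 + Real.log 2 + Real.log 2) + Real.log x ≤
      2 * ε * x := by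
    have h2 := (Real.isLittleO_log_id_atTop.def (show (0 : ℝ) < ε by positivity))
    filter_upwards [h2, Filter.eventually_ge_atTop
      (max 1 ((Real.log 4 + Real.log 2 + Real.log 2) / ε))] with x hx hx1
    have hx2 : 1 ≤ x := (le_max_left _ _).trans hx1
    have hx3 : (Real.log 4 + Real.log 2 + Real.log 2) / ε ≤ x := (le_max_right _ _).trans hx1
    rw [id, Real.norm_eq_abs, Real.norm_eq_abs, abs_of_nonneg (Real.log_nonneg hx2),
      abs_of_nonneg (by linarith)] at hx
    rw [div_le_iff₀ hε] at hx3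
    linarith
  have h2 : ∀ᶠ p : ℕ in Filter.atTop, (Real.log 4 + Real.log 2 + Real.log 2) +
      Real.log (Real.log p) ≤ 2 * ε * Real.log p :=
    (Real.tendsto_log_atTop.comp tendsto_natCast_atTop_atTop).eventually h1
  obtain ⟨P, hP⟩ := Filter.eventually_atTop.1 h2
  refine ⟨max P 3, fun p hpP hpp h n hh hn1 hn => ?_⟩
  have hp3 : 3 ≤ p := (le_max_right _ _).trans hpP
  have hpR : (3 : ℝ) ≤ p := by exact_mod_cast hp3
  have h3 := hP p ((le_max_left _ _).trans hpP)
  have h4 := classes hpp (by omega) h n hh hn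
  set Z := ∑ j ∈ range h, (n - ((reg p h j).card + if j = 0 then 1 else 0)) with hZ
  have hh0 : 0 < h := by
    rcases Nat.eq_zero_or_pos h with h0 | h0
    · rw [h0, zero_dvd_iff] at hh
      omega
    · exact h0
  have hN1 : 1 ≤ n * h := Nat.mul_pos hn1 hh0
  set N := n * h with hN
  have hNR : (1 : ℝ) ≤ N := by exact_mod_cast hN1
  have hL0 : 0 < Real.log p := Real.log_pos (by linarith)
  have hL20 : 0 < Real.log (2 * p) := Real.log_pos (by linarith)
  have hL2 : Real.log (2 * p) ≤ 2 * Real.log p := by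
    rw [Real.log_mul (by norm_num) (by linarith)]
    have := Real.log_le_log (by norm_num) (show (2 : ℝ) ≤ p by linarith)
    linarith
  have h5 := Real.log_le_log (by positivity) h4
  rw [Real.log_pow, Real.log_mul (by norm_num) (by positivity), Real.log_pow,
    Real.log_mul (by positivity) hL20.ne', Real.log_mul (by norm_num) (by positivity)] at h5
  have h6 : Real.log (Real.log (2 * p)) ≤ Real.log 2 + Real.log (Real.log p) := by
    rw [← Real.log_mul (by norm_num) hL0.ne']
    exact Real.log_le_log hL20 hL2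
  push_cast at h5
  have h40 : 0 ≤ Real.log 4 := Real.log_nonneg (by norm_num)
  have h7 : 2 * (Z : ℝ) * Real.log p ≤ N * (Real.log N + 2 * ε * Real.log p) := by
    calc 2 * (Z : ℝ) * Real.log p ≤ Real.log 4 + N * (Real.log 2 + Real.log N +
          Real.log (Real.log (2 * p))) := h5
      _ ≤ N * Real.log 4 + N * (Real.log 2 + Real.log N + (Real.log 2 + Real.log (Real.log p))) := by
          have e1 : Real.log 4 ≤ N * Real.log 4 := le_mul_of_one_le_left h40 hNR
          have e2 : N * (Real.log 2 + Real.log N + Real.log (Real.log (2 * p))) ≤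
              N * (Real.log 2 + Real.log N + (Real.log 2 + Real.log (Real.log p))) :=
            mul_le_mul_of_nonneg_left (by linarith) (by linarith)
          linarith
      _ = N * (Real.log N + ((Real.log 4 + Real.log 2 + Real.log 2) + Real.log (Real.log p))) := by
          ring
      _ ≤ _ := mul_le_mul_of_nonneg_left (by linarith) (by linarith)
  have h8 : (Real.log N / (2 * Real.log p) + ε) * N =
      (N * (Real.log N + 2 * ε * Real.log p)) / (2 * Real.log p) := by
    field_simp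
  rw [h8, le_div_iff₀ (by positivity)]
  linarith

end Pool.Agent.N840.RC
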